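import Pool.Agent.MTN.Stmts2

/-! MTN, row WDZ (helper82): from windows at the points of `Pts` to density zero in the ring of integers
of every number field. -/

set_option autoImplicit false

namespace Pool.Agent.MTN.H82

open NumberField Pool.Agent.MTN Pool.Agent.HIK

theorem wdz (pth : PthStmt) (avw : AvwStmt) (sml : SmlStmt) (dzc : DzcStmt) (box : BoxStmt) :
    WdzStmt := by
  intro S C R1 hS k _ _ σ
  obtain ⟨H0, hH0⟩ := pth k σ
  obtain ⟨Cb, hCb⟩ := box k
  obtain ⟨-, hun, hfin, -⟩ := dzc k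
  obtain ⟨m, hm⟩ : ∃ m, m = Module.finrank ℚ k := ⟨_, rfl⟩
  have hN : ∀ M : ℕ, ∃ N : ℕ, max H0 (R1 m (2 * m + 2) M ^ 2) ≤ (N : ℝ) := fun M =>
    exists_nat_ge _
  choose N hN using hN
  refine avw k {a : 𝓞 k | σ a ∈ S}
    (fun M => ⋃ i : Bool, if i then {w : 𝓞 k | ‖σ (w : k)‖ < house (w : k) ^ (1 / 2 : ℝ)} else
      {w : 𝓞 k | house (w : k) ≤ N M}) C ?_ ?_
  · intro M
    refine hun Bool _ ?_
    intro i
    cases i
    · simp only [Bool.false_eq_true, if_false]
      exact hfin _ (hCb (N M)).1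
    · simp only [if_true]
      exact sml k σ (1 / 2) (by norm_num) (by norm_num)
  · intro M w hw
    rw [Set.mem_iUnion, not_exists] at hw
    have h1 : ¬ ‖σ (w : k)‖ < house (w : k) ^ (1 / 2 : ℝ) := by
      have h := hw true
      simp only [if_true] at h
      exact fun h' => h h'
    have h2 : ¬ house (w : k) ≤ N M := by
      have h := hw false
      simp only [Bool.false_eq_true, if_false] at h
      exact fun h' => h h'
    rw [not_lt] at h1
    rw [not_le] at h2
    have h3 : H0 ≤ house (w : k) := (le_max_left _ _).trans ((hN M).trans h2.le)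
    have h4 : R1 m (2 * m + 2) M ^ 2 ≤ house (w : k) :=
      (le_max_right _ _).trans ((hN M).trans h2.le)
    have h5 : R1 m (2 * m + 2) M ≤ ‖σ (w : k)‖ := by
      refine le_trans ?_ h1
      rw [← Real.sqrt_eq_rpow]
      exact (le_abs_self _).trans (Real.abs_le_sqrt h4)
    have h6 := hH0 w h3 h1
    rw [← hm] at h6
    have h7 := hS m (2 * m + 2) M (σ (w : k)) h6 h5
    have h8 : ∀ κ : ℕ, (w - (κ : 𝓞 k) ∈ {a : 𝓞 k | σ a ∈ S}) ↔ σ (w : k) - κ ∈ S := by
      intro κ
      have h9 : σ ((w - (κ : 𝓞 k) : 𝓞 k) : k) = σ (w : k) - κ := by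
        rw [show ((w - (κ : 𝓞 k) : 𝓞 k) : k) = (w : k) - (κ : k) by
          push_cast
          rfl, map_sub, map_natCast]
      show σ ((w - (κ : 𝓞 k) : 𝓞 k) : k) ∈ S ↔ _
      rw [h9]
    simp only [h8]
    exact h7

end Pool.Agent.MTN.H82
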